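import Pool.Agent.STR.Stmts

/-!
# Squad STR, module NOI: elementary properties of the noise operator
-/

set_option autoImplicit false

namespace Pool.Agent.STR.H97

open Finset

variable {α : Type} [Fintype α] [DecidableEq α]

theorem chi_comm (a b : Bool) : chi a b = chi b a := by
  unfold chi
  by_cases h : a = b
  · rw [if_pos h, if_pos h.symm]
  · rw [if_neg h, if_neg (Ne.symm h)]

/-- The kernel of the noise operator. -/
noncomputable def ker (ρ : ℝ) (x y : α → Bool) : ℝ := ∏ i, (1 + ρ * chi (x i) (y i)) / 2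

omit [DecidableEq α] in
theorem ker_comm (ρ : ℝ) (x y : α → Bool) : ker ρ x y = ker ρ y x := by
  unfold ker
  exact Finset.prod_congr rfl fun i _ => by rw [chi_comm]

omit [DecidableEq α] in
theorem ker_nonneg {ρ : ℝ} (h0 : 0 ≤ ρ) (h1 : ρ ≤ 1) (x y : α → Bool) : 0 ≤ ker ρ x y := by
  unfold ker
  refine Finset.prod_nonneg fun i _ => ?_
  unfold chi
  split_ifs <;> linarith

theorem ker_sum (ρ : ℝ) (x : α → Bool) : ∑ y, ker ρ x y = 1 := by
  unfold ker
  have h := Finset.prod_univ_sum (fun _ : α => (Finset.univ : Finset Bool))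
    (fun i b => (1 + ρ * chi (x i) b) / 2)
  rw [Fintype.piFinset_univ] at h
  rw [← h]
  refine Finset.prod_eq_one fun i _ => ?_
  rw [Fintype.sum_bool]
  cases x i <;> simp [chi] <;> ring

theorem T_eq (ρ : ℝ) (F : (α → Bool) → ℝ) (x : α → Bool) : T ρ F x = ∑ y, ker ρ x y * F y := rfl

/-- NOI. -/
theorem noi : NoiStmt := by
  intro α _ _ ρ F a b h0 h1 ha hb
  refine ⟨fun x => ⟨?_, ?_⟩, ?_, fun x => ?_⟩
  · rw [T_eq]
    calc a = ∑ y, ker ρ x y * a := by rw [← Finset.sum_mul, ker_sum, one_mul]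
      _ ≤ _ := Finset.sum_le_sum fun y _ => mul_le_mul_of_nonneg_left (ha y) (ker_nonneg h0 h1 x y)
  · rw [T_eq]
    calc ∑ y, ker ρ x y * F y ≤ ∑ y, ker ρ x y * b :=
        Finset.sum_le_sum fun y _ => mul_le_mul_of_nonneg_left (hb y) (ker_nonneg h0 h1 x y)
      _ = b := by rw [← Finset.sum_mul, ker_sum, one_mul]
  · unfold av
    congr 1
    simp only [T_eq]
    rw [Finset.sum_comm]
    refine Finset.sum_congr rfl fun y _ => ?_
    rw [← Finset.sum_mul]
    simp only [ker_comm ρ _ y]
    rw [ker_sum, one_mul]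
  · unfold av T
    simp only [zero_mul, add_zero, Finset.prod_const, Finset.card_univ, Fintype.card_fun,
      Fintype.card_bool]
    rw [← Finset.mul_sum]
    push_cast
    rw [one_div, inv_pow, div_eq_inv_mul]

end Pool.Agent.STR.H97
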